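import Pool.Agent.P.MP_4d1c53_an.G

open Pool.Agent.P.MP_4d1c53_an

namespace Pool.Agent.Results.MP_4d1c53_an.Density

/-- Every nonconstant inner function is a uniform limit of indestructible Blaschke products. -/
theorem result (u : ℂ → ℂ) (hu : IsInner u) (hn : ∃ z ∈ disc, ∃ w ∈ disc, u z ≠ u w) (ε : ℝ)
    (hε : 0 < ε) : ∃ B : ℂ → ℂ, Indestructible B ∧ ∀ z ∈ disc, ‖u z - B z‖ ≤ ε :=
  density hu hn hε

end Pool.Agent.Results.MP_4d1c53_an.Density
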