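import Pool.Agent.P.MP_4d1c53_an.C

open Filter Topology Pool.Agent.P.MP_4d1c53_an

namespace Pool.Agent.Results.MP_4d1c53_an.ExceptionalSet

/-- The exceptional set of a nonconstant limit of forward compositions of holomorphic self-maps of
the disc consists of the limits of the forward orbits of the exceptional points of the maps. -/
theorem result (f : ℕ → ℂ → ℂ) (hd : ∀ n, DifferentiableOn ℂ (f n) disc)
    (hm : ∀ n, Set.MapsTo (f n) disc disc) (F : ℂ → ℂ)
    (hF : ∀ z ∈ disc, Tendsto (fun m => orb f 0 m z) atTop (𝓝 (F z)))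
    (hn : ∃ z ∈ disc, ∃ w ∈ disc, F z ≠ F w) (a : ℂ) (ha : a ∈ disc) :
    a ∈ Exc F ↔ ∃ n, ∃ c ∈ Exc (f n), Tendsto (fun m => orb f (n + 1) m c) atTop (𝓝 a) :=
  main hd hm hF hn ha

end Pool.Agent.Results.MP_4d1c53_an.ExceptionalSet
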